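import Mathlib

/-!
Left invariant independence systems on a group and their passage along cosets.
-/

namespace Pool.Agent.MP_77f003_co.H49

open Finset
open scoped Pointwise

variable {Γ : Type} [Group Γ] [DecidableEq Γ]

/-- A left invariant independence system of rank `h`. -/
structure TokSys (h : ℕ) (M : Set (Finset Γ)) : Prop where
  down : ∀ I ∈ M, ∀ J ⊆ I, J ∈ M
  aug : ∀ I ∈ M, ∀ J ∈ M, I.card < J.card → ∃ e ∈ J, e ∉ I ∧ insert e I ∈ M
  inv : ∀ I ∈ M, ∀ g : Γ, I.image (fun x => g * x) ∈ M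
  bdd : ∀ I ∈ M, I.card ≤ h
  full : ∃ I ∈ M, I.card = h

/-- An indexed basis. -/
def TokBas {h : ℕ} (M : Set (Finset Γ)) (X : Fin h → Γ) : Prop :=
  Function.Injective X ∧ univ.image X ∈ M

omit [DecidableEq Γ] in
theorem tok_avoid (E : Subgroup Γ) {n : ℕ} (hE : E.index = 0 ∨ n ≤ E.index) (B I : Finset Γ)
    (hn : B.card * I.card < n) : ∃ g : Γ, ∀ b ∈ B, ∀ x ∈ I, x⁻¹ * (g * b) ∉ E := by
  by_contra hcon
  push Not at hcon
  have hc : ⋃ i ∈ B ×ˢ I, (i.2 * i.1⁻¹) •
      ((E.comap (MulAut.conj i.1⁻¹).toMonoidHom : Subgroup Γ) : Set Γ) = Set.univ := by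
    refine Set.eq_univ_of_forall fun g => ?_
    obtain ⟨b, hb, x, hx, h⟩ := hcon g
    refine Set.mem_biUnion (x := (b, x)) (by simpa using ⟨hb, hx⟩) ?_
    rw [mem_leftCoset_iff]
    simpa [mul_assoc] using h
  obtain ⟨i, -, h1, h2⟩ := Subgroup.exists_index_le_card_of_leftCoset_cover hc
  have h3 : (E.comap (MulAut.conj i.1⁻¹).toMonoidHom).index = E.index :=
    Subgroup.index_comap_of_surjective _ (MulAut.conj i.1⁻¹).surjective
  have h4 := h1.index_ne_zero
  rw [h3] at h2 h4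
  rw [card_product] at h2
  omega

theorem tok_card_mul (g : Γ) (I : Finset Γ) : (I.image (fun x => g * x)).card = I.card :=
  card_image_of_injective _ (mul_right_injective g)

theorem TokSys.ext {h : ℕ} {M : Set (Finset Γ)} (hM : TokSys h M) {I : Finset Γ} (hI : I ∈ M)
    (k : ℕ) : ∀ J ∈ M, J.card + k = I.card → ∃ L ∈ M, J ⊆ L ∧ L ⊆ J ∪ I ∧ L.card = I.card := by
  induction k with
  | zero => exact fun J hJ h => ⟨J, hJ, Subset.rfl, subset_union_left, h⟩
  | succ k ih =>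
    intro J hJ hk
    obtain ⟨e, he, he', h1⟩ := hM.aug J hJ I hI (by omega)
    obtain ⟨L, hL, h2, h3, h4⟩ := ih _ h1 (by rw [card_insert_of_notMem he']; omega)
    refine ⟨L, hL, (subset_insert _ _).trans h2, h3.trans fun x hx => ?_, h4⟩
    simp only [mem_union, mem_insert] at hx ⊢
    rcases hx with (rfl | hx) | hx
    exacts [Or.inr he, Or.inl hx, Or.inr hx]

theorem TokSys.exch {h : ℕ} {M : Set (Finset Γ)} (hM : TokSys h M) {I J : Finset Γ} (hI : I ∈ M)
    (hIc : I.card = h) (hJ : J ∈ M) {e : Γ} (he : e ∈ I) (hmax : e ∉ J → insert e J ∉ M) :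
    ∃ e' ∈ J, e' ∉ I.erase e ∧ insert e' (I.erase e) ∈ M := by
  by_cases heJ : e ∈ J
  · exact ⟨e, heJ, notMem_erase _ _, by rwa [insert_erase he]⟩
  have h0 := hM.bdd J hJ
  obtain ⟨L, hL, h1, h2, h3⟩ := hM.ext hI (I.card - J.card) J hJ (by omega)
  have heL : e ∉ L := fun h => hmax heJ (hM.down L hL _ (insert_subset h h1))
  obtain ⟨e', he', h4, h5⟩ := hM.aug (I.erase e) (hM.down I hI _ (erase_subset _ _)) L hL
    (by rw [h3]; exact card_erase_lt_of_mem he)
  refine ⟨e', ?_, h4, h5⟩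
  rcases mem_union.1 (h2 he') with h | h
  · exact h
  · exact absurd (mem_erase.2 ⟨fun h' : e' = e => heL (h' ▸ he'), h⟩) h4

/-- The sets in distinct cosets that have an independent transversal. -/
def tokInd (M : Set (Finset Γ)) (E : Subgroup Γ) : Set (Finset Γ) :=
  {X | (∀ x ∈ X, ∀ y ∈ X, x⁻¹ * y ∈ E → x = y) ∧ ∃ I ∈ M,
    (∀ x ∈ I, ∀ y ∈ I, x⁻¹ * y ∈ E → x = y) ∧ (∀ x ∈ X, ∃ y ∈ I, x⁻¹ * y ∈ E) ∧
      ∀ y ∈ I, ∃ x ∈ X, x⁻¹ * y ∈ E}

omit [DecidableEq Γ] in
theorem tok_symm {E : Subgroup Γ} {x y : Γ} (h : x⁻¹ * y ∈ E) : y⁻¹ * x ∈ E := by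
  simpa using E.inv_mem h

omit [DecidableEq Γ] in
theorem tok_trans {E : Subgroup Γ} {x y z : Γ} (h : x⁻¹ * y ∈ E) (h' : y⁻¹ * z ∈ E) :
    x⁻¹ * z ∈ E := by
  simpa [mul_assoc] using E.mul_mem h h'

omit [DecidableEq Γ] in
theorem tok_refl (E : Subgroup Γ) (x : Γ) : x⁻¹ * x ∈ E := by simp

omit [DecidableEq Γ] in
theorem tok_card_le {E : Subgroup Γ} {X I : Finset Γ}
    (hX : ∀ x ∈ X, ∀ y ∈ X, x⁻¹ * y ∈ E → x = y) (h : ∀ x ∈ X, ∃ y ∈ I, x⁻¹ * y ∈ E) :
    X.card ≤ I.card := by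
  choose! f hf hf' using h
  exact card_le_card_of_injOn f hf fun x hx y hy hxy =>
    hX x hx y hy (tok_trans (hf' x hx) (tok_symm (hxy ▸ hf' y hy)))

theorem tok_aug {h : ℕ} {M : Set (Finset Γ)} (hM : TokSys h M) (E : Subgroup Γ) {X Y J : Finset Γ}
    (hX : ∀ x ∈ X, ∀ y ∈ X, x⁻¹ * y ∈ E → x = y) (hJ : J ∈ M)
    (hJ1 : ∀ x ∈ J, ∀ y ∈ J, x⁻¹ * y ∈ E → x = y) (hJ2 : ∀ y ∈ J, ∃ x ∈ Y, x⁻¹ * y ∈ E)
    (hc : X.card < J.card) (n : ℕ) : ∀ I ∈ M, (I \ J).card = n →
    (∀ x ∈ I, ∀ y ∈ I, x⁻¹ * y ∈ E → x = y) → (∀ x ∈ X, ∃ y ∈ I, x⁻¹ * y ∈ E) →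
    (∀ y ∈ I, ∃ x ∈ X, x⁻¹ * y ∈ E) → ∃ e ∈ Y, e ∉ X ∧ insert e X ∈ tokInd M E := by
  induction n using Nat.strong_induction_on with
  | _ n ih =>
  intro I hI hn h1 h2 h3
  have hc' : I.card ≤ X.card := tok_card_le h1 fun y hy => by
    obtain ⟨x, hx, h⟩ := h3 y hy
    exact ⟨x, hx, tok_symm h⟩
  obtain ⟨e, he, heI, hins⟩ := hM.aug I hI J hJ (by omega)
  by_cases hq : ∃ e' ∈ I, e'⁻¹ * e ∈ E
  · obtain ⟨e', he', hq⟩ := hq
    have hne : e' ∉ J := fun h => heI (hJ1 e' h e he hq ▸ he')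
    refine ih _ ?_ (insert e (I.erase e')) (hM.down _ hins _
      (insert_subset_insert _ (erase_subset _ _))) rfl ?_ ?_ ?_
    · rw [← hn]
      refine card_lt_card ⟨fun x hx => ?_, fun hsub => ?_⟩
      · simp only [mem_sdiff, mem_insert, mem_erase] at hx ⊢
        rcases hx with ⟨rfl | hx, hx'⟩
        exacts [absurd he hx', ⟨hx.2, hx'⟩]
      · have := hsub (mem_sdiff.2 ⟨he', hne⟩)
        simp only [mem_sdiff, mem_insert, mem_erase] at this
        rcases this.1 with rfl | h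
        exacts [hne he, h.1 rfl]
    · intro x hx y hy hxy
      simp only [mem_insert, mem_erase] at hx hy
      rcases hx with rfl | hx <;> rcases hy with rfl | hy
      · rfl
      · exact absurd (h1 _ he' _ hy.2 (tok_trans hq hxy)).symm hy.1
      · exact absurd (h1 _ hx.2 _ he' (tok_trans hxy (tok_symm hq))) hx.1
      · exact h1 _ hx.2 _ hy.2 hxy
    · intro x hx
      obtain ⟨y, hy, h⟩ := h2 x hx
      by_cases hy' : y = e'
      · exact ⟨e, mem_insert_self _ _, tok_trans (hy' ▸ h) hq⟩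
      · exact ⟨y, mem_insert_of_mem (mem_erase.2 ⟨hy', hy⟩), h⟩
    · intro y hy
      rcases mem_insert.1 hy with rfl | hy
      · obtain ⟨x, hx, h⟩ := h3 e' he'
        exact ⟨x, hx, tok_trans h hq⟩
      · exact h3 y (mem_erase.1 hy).2
  · push Not at hq
    obtain ⟨y, hy, hye⟩ := hJ2 e he
    have hfar : ∀ x ∈ X, x⁻¹ * y ∉ E := fun x hx h => by
      obtain ⟨z, hz, h'⟩ := h2 x hx
      exact hq z hz (tok_trans (tok_trans (tok_symm h') h) hye)
    refine ⟨y, hy, fun h => hfar y h (tok_refl E y), ?_, insert e I, hins, ?_, ?_, ?_⟩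
    · intro a ha b hb hab
      rw [mem_insert] at ha hb
      rcases ha with rfl | ha <;> rcases hb with rfl | hb
      · rfl
      · exact absurd (tok_symm hab) (hfar b hb)
      · exact absurd hab (hfar a ha)
      · exact hX a ha b hb hab
    · intro a ha b hb hab
      rw [mem_insert] at ha hb
      rcases ha with rfl | ha <;> rcases hb with rfl | hb
      · rfl
      · exact absurd (tok_symm hab) (hq b hb)
      · exact absurd hab (hq a ha)
      · exact h1 a ha b hb hab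
    · intro x hx
      rcases mem_insert.1 hx with rfl | hx
      · exact ⟨e, mem_insert_self _ _, hye⟩
      · obtain ⟨z, hz, h⟩ := h2 x hx
        exact ⟨z, mem_insert_of_mem hz, h⟩
    · intro z hz
      rcases mem_insert.1 hz with rfl | hz
      · exact ⟨y, mem_insert_self _ _, hye⟩
      · obtain ⟨x, hx, h⟩ := h3 z hz
        exact ⟨x, mem_insert_of_mem hx, h⟩

theorem TokSys.ind {h : ℕ} {M : Set (Finset Γ)} (hM : TokSys h M) (E : Subgroup Γ)
    (hE : E.index = 0 ∨ h * h ≤ E.index) : TokSys h (tokInd M E) where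
  down := by
    classical
    rintro X ⟨hX, I, hI, h1, h2, h3⟩ Y hY
    refine ⟨fun x hx y hy => hX x (hY hx) y (hY hy),
      I.filter (fun y => ∃ x ∈ Y, x⁻¹ * y ∈ E), hM.down I hI _ (filter_subset _ _),
      fun x hx y hy => h1 x (mem_filter.1 hx).1 y (mem_filter.1 hy).1, fun x hx => ?_,
      fun y hy => (mem_filter.1 hy).2⟩
    obtain ⟨y, hy, h⟩ := h2 x (hY hx)
    exact ⟨y, mem_filter.2 ⟨hy, x, hx, h⟩, h⟩
  aug := by
    rintro X ⟨hX, I, hI, h1, h2, h3⟩ Y ⟨hY, J, hJ, g1, g2, g3⟩ hc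
    exact tok_aug hM E hX hJ g1 g3 (hc.trans_le (tok_card_le hY g2)) _ I hI rfl h1 h2 h3
  inv := by
    rintro X ⟨hX, I, hI, h1, h2, h3⟩ g
    have key : ∀ x y : Γ, (g * x)⁻¹ * (g * y) = x⁻¹ * y := fun x y => by group
    refine ⟨?_, _, hM.inv I hI g, ?_, ?_, ?_⟩
    · simp only [mem_image, forall_exists_index, and_imp, forall_apply_eq_imp_iff₂, key]
      exact fun x hx y hy h => by rw [hX x hx y hy h]
    · simp only [mem_image, forall_exists_index, and_imp, forall_apply_eq_imp_iff₂, key]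
      exact fun x hx y hy h => by rw [h1 x hx y hy h]
    · intro x hx
      obtain ⟨x, hx', rfl⟩ := mem_image.1 hx
      obtain ⟨y, hy, h⟩ := h2 x hx'
      exact ⟨g * y, mem_image_of_mem _ hy, by rwa [key]⟩
    · intro y hy
      obtain ⟨y, hy', rfl⟩ := mem_image.1 hy
      obtain ⟨x, hx, h⟩ := h3 y hy'
      exact ⟨g * x, mem_image_of_mem _ hx, by rwa [key]⟩
  bdd := by
    rintro X ⟨hX, I, hI, h1, h2, h3⟩
    exact (tok_card_le hX h2).trans (hM.bdd I hI)
  full := by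
    obtain ⟨B, hB, hBc⟩ := hM.full
    have key : ∀ i ≤ h, ∃ I ∈ M, I.card = i ∧ ∀ x ∈ I, ∀ y ∈ I, x⁻¹ * y ∈ E → x = y := by
      intro i
      induction i with
      | zero => exact fun _ => ⟨∅, hM.down B hB _ (empty_subset _), rfl, by simp⟩
      | succ i ih =>
        intro hi
        obtain ⟨I, hI, hc, h1⟩ := ih (by omega)
        obtain ⟨g, hg⟩ := tok_avoid E hE B I
          (by rw [hBc, hc]; exact Nat.mul_lt_mul_of_pos_left (by omega) (by omega))
        obtain ⟨e, he, heI, hins⟩ := hM.aug I hI _ (hM.inv B hB g)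
          (by rw [tok_card_mul]; omega)
        obtain ⟨b, hb, rfl⟩ := mem_image.1 he
        refine ⟨_, hins, by rw [card_insert_of_notMem heI, hc], fun x hx y hy hxy => ?_⟩
        rw [mem_insert] at hx hy
        rcases hx with rfl | hx <;> rcases hy with rfl | hy
        · rfl
        · exact absurd (tok_symm hxy) (hg b hb y hy)
        · exact absurd hxy (hg b hb x hx)
        · exact h1 x hx y hy hxy
    obtain ⟨I, hI, hc, h1⟩ := key h le_rfl
    exact ⟨I, ⟨h1, I, hI, h1, fun x hx => ⟨x, hx, tok_refl E x⟩,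
      fun x hx => ⟨x, hx, tok_refl E x⟩⟩, hc⟩

theorem tok_free (h : ℕ) (E : Subgroup Γ) (hE : E.index = 0 ∨ h * h ≤ E.index) :
    TokSys h {I : Finset Γ | I.card ≤ h} where
  down := fun I hI J hJ => (card_le_card hJ).trans hI
  aug := fun I _ J hJ hc => by
    obtain ⟨e, he, he'⟩ := exists_mem_notMem_of_card_lt_card hc
    refine ⟨e, he, he', ?_⟩
    have : J.card ≤ h := hJ
    show (insert e I).card ≤ h
    rw [card_insert_of_notMem he']
    omega
  inv := fun I hI g => by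
    show (I.image _).card ≤ h
    rwa [tok_card_mul]
  bdd := fun I hI => hI
  full := by
    have key : ∀ i ≤ h, ∃ I : Finset Γ, I.card = i := by
      intro i
      induction i with
      | zero => exact fun _ => ⟨∅, rfl⟩
      | succ i ih =>
        intro hi
        obtain ⟨I, hc⟩ := ih (by omega)
        obtain ⟨g, hg⟩ := tok_avoid E hE {1} I (by rw [card_singleton, hc]; nlinarith)
        have hgI : g ∉ I := fun h => hg 1 (mem_singleton_self _) g h (by simp)
        exact ⟨insert g I, by rw [card_insert_of_notMem hgI, hc]⟩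
    obtain ⟨I, hI⟩ := key h le_rfl
    exact ⟨I, hI.le, hI⟩

theorem TokSys.stab {h : ℕ} {M : Set (Finset Γ)} (hM : TokSys h M) (C : ℕ → Subgroup Γ)
    (hC : ∀ j, C j ≤ C (j + 1)) : ∃ j ≤ h, ∃ J ∈ M, (∀ x ∈ J, x ∈ C j) ∧
      ∀ e ∈ C (j + 1), e ∉ J → insert e J ∉ M := by
  by_contra hcon
  push Not at hcon
  have key : ∀ j ≤ h + 1, ∃ J ∈ M, J.card = j ∧ ∀ x ∈ J, x ∈ C j := by
    intro j
    induction j with
    | zero =>
      obtain ⟨B, hB, -⟩ := hM.full
      exact fun _ => ⟨∅, hM.down B hB _ (empty_subset _), rfl, by simp⟩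
    | succ j ih =>
      intro hj
      obtain ⟨J, hJ, hc, h1⟩ := ih (by omega)
      obtain ⟨e, he, heJ, hins⟩ := hcon j (by omega) J hJ h1
      refine ⟨_, hins, by rw [card_insert_of_notMem heJ, hc], fun x hx => ?_⟩
      rcases mem_insert.1 hx with rfl | hx
      exacts [he, hC j (h1 x hx)]
  obtain ⟨J, hJ, hc, -⟩ := key (h + 1) le_rfl
  have := hM.bdd J hJ
  omega

theorem TokSys.bas {h : ℕ} {M : Set (Finset Γ)} (hM : TokSys h M) :
    ∃ X : Fin h → Γ, TokBas M X := by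
  obtain ⟨I, hI, hc⟩ := hM.full
  refine ⟨fun a => (I.equivFinOfCardEq hc).symm a, fun a b hab => ?_, hM.down I hI _ ?_⟩
  · exact (I.equivFinOfCardEq hc).symm.injective (Subtype.ext hab)
  · intro x hx
    obtain ⟨a, -, rfl⟩ := mem_image.1 hx
    exact Subtype.property _

/-- One event: the new system and the way its bases come from bases of the old one. -/
theorem TokSys.step {h : ℕ} {M : Set (Finset Γ)} (hM : TokSys h M) (C : ℕ → Subgroup Γ)
    (hC : ∀ j, C j ≤ C (j + 1)) (hi : ∀ j ≤ h, (C (j + 1)).index = 0 ∨ h * h ≤ (C (j + 1)).index) :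
    ∃ j ≤ h, ∃ M' : Set (Finset Γ), TokSys h M' ∧ ∀ Y : Fin h → Γ, TokBas M' Y →
      (∀ a b, a ≠ b → (Y a)⁻¹ * Y b ∉ C (j + 1)) ∧
      ∃ X : Fin h → Γ, TokBas M X ∧ ∀ a, (Y a)⁻¹ * X a ∈ C j := by
  obtain ⟨j, hj, J, hJ, hJ1, hJ2⟩ := hM.stab C hC
  refine ⟨j, hj, _, hM.ind (C (j + 1)) (hi j hj), ?_⟩
  rintro Y ⟨hY, hY1, I, hI, -, h2, -⟩
  have hsep : ∀ a b, a ≠ b → (Y a)⁻¹ * Y b ∉ C (j + 1) := fun a b hab h =>
    hab (hY (hY1 _ (mem_image_of_mem _ (mem_univ a)) _ (mem_image_of_mem _ (mem_univ b)) h))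
  refine ⟨hsep, ?_⟩
  have hinj : ∀ X : Fin h → Γ, (∀ a, (Y a)⁻¹ * X a ∈ C (j + 1)) → Function.Injective X :=
    fun X hX a b hab => by
      by_contra hne
      exact hsep a b hne (tok_trans (hX a) (tok_symm (hab ▸ hX b)))
  have key : ∀ A : Finset (Fin h), ∃ X : Fin h → Γ, univ.image X ∈ M ∧
      (∀ a, (Y a)⁻¹ * X a ∈ C (j + 1)) ∧ ∀ a ∈ A, (Y a)⁻¹ * X a ∈ C j := by
    intro A
    induction A using Finset.induction_on with
    | empty =>
      choose X hX hX' using fun a => h2 (Y a) (mem_image_of_mem _ (mem_univ a))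
      refine ⟨X, hM.down I hI _ fun x hx => ?_, hX', by simp⟩
      obtain ⟨a, -, rfl⟩ := mem_image.1 hx
      exact hX a
    | insert a A ha ih =>
      obtain ⟨X, hX, h3, h4⟩ := ih
      obtain ⟨e', he', -, h5⟩ := hM.exch hX
        (by rw [card_image_of_injective _ (hinj X h3), card_univ, Fintype.card_fin])
        (hM.inv J hJ (Y a)) (e := X a) (mem_image_of_mem _ (mem_univ a)) (fun hn hm => by
          refine hJ2 _ (h3 a) (fun hh => hn (mem_image.2 ⟨_, hh, by simp⟩)) ?_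
          have := hM.inv _ hm (Y a)⁻¹
          rw [image_insert, image_image] at this
          simpa [Function.comp_def] using this)
      obtain ⟨y, hy, rfl⟩ := mem_image.1 he'
      have h6 : (Y a)⁻¹ * (Y a * y) ∈ C j := by simpa using hJ1 y hy
      refine ⟨Function.update X a (Y a * y), hM.down _ h5 _ fun x hx => ?_, fun b => ?_,
        fun b hb => ?_⟩
      · obtain ⟨b, -, rfl⟩ := mem_image.1 hx
        by_cases hb : b = a
        · subst hb
          simp
        · rw [Function.update_of_ne hb]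
          exact mem_insert_of_mem (mem_erase.2 ⟨fun h => hb (hinj X h3 h),
            mem_image_of_mem _ (mem_univ b)⟩)
      · by_cases hb : b = a
        · subst hb
          rw [Function.update_self]
          exact hC j h6
        · rw [Function.update_of_ne hb]
          exact h3 b
      · by_cases hb' : b = a
        · subst hb'
          rw [Function.update_self]
          exact h6
        · rw [Function.update_of_ne hb']
          exact h4 b ((mem_insert.1 hb).resolve_left hb')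
  obtain ⟨X, hX, h3, h4⟩ := key univ
  exact ⟨X, ⟨hinj X h3, hX⟩, fun a => h4 a (mem_univ a)⟩

end Pool.Agent.MP_77f003_co.H49
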