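import Pool.Agent.MP_77f003_co.H49.USpec
import Pool.Agent.MP_77f003_co.H42.TokA

/-!
Far tokens running along the translates of a chain of segments.
-/

namespace Pool.Agent.MP_77f003_co.H49

open SimpleGraph

variable {V : Type} {G : SimpleGraph V}

/-- The union of the segments of a time window. -/
def tokU (S : ℕ → Set V) (m a b : ℕ) : Set V := {x | ∃ t, a ≤ t ∧ t ≤ b ∧ t ≤ m ∧ x ∈ S t}

/-- The points near the translates of `U` by the coset `u C`. -/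
def tokHub (G : SimpleGraph V) (C : Subgroup (G ≃g G)) (ρ : ℕ) (U : Set V) (u : G ≃g G) :
    Set V := {z | ∃ c ∈ C, ∃ y ∈ U, G.dist z ((u * c) y) ≤ ρ}

theorem tokU_mono {S : ℕ → Set V} {m a b a' b' : ℕ} (ha : a' ≤ a) (hb : b ≤ b') :
    tokU S m a b ⊆ tokU S m a' b' := fun _ ⟨t, h1, h2, h3, h4⟩ => ⟨t, by omega, by omega, h3, h4⟩

theorem tokU_conn {S : ℕ → Set V} {m : ℕ} (h1 : ∀ t ≤ m, (S t).Nonempty ∧ Conn G (S t))
    (h2 : ∀ t < m, (S t ∩ S (t + 1)).Nonempty) (a b : ℕ) : Conn G (tokU S m a b) := by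
  have key : ∀ k, a + k ≤ b → a + k ≤ m → ∀ x ∈ S (a + k), ∀ y ∈ S a,
      Lk G (tokU S m a b) x y := by
    intro k
    induction k with
    | zero =>
      intro hb hm x hx y hy
      exact ((h1 a hm).2 x hx y hy).mono fun z hz => ⟨a, le_rfl, hb, hm, hz⟩
    | succ k ih =>
      intro hb hm x hx y hy
      obtain ⟨z, hz, hz'⟩ := h2 (a + k) (by omega)
      exact Lk.trans (((h1 _ hm).2 x hx z hz').mono fun v hv => ⟨_, by omega, hb, hm, hv⟩)
        (ih (by omega) (by omega) z hz y hy)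
  rintro x ⟨s, s1, s2, s3, hx⟩ y ⟨t, t1, t2, t3, hy⟩
  obtain ⟨z, hz⟩ := (h1 a (by omega)).1
  obtain ⟨s, rfl⟩ := Nat.exists_eq_add_of_le s1
  obtain ⟨t, rfl⟩ := Nat.exists_eq_add_of_le t1
  exact (key s s2 s3 x hx z hz).trans (key t t2 t3 y hy z hz).symm

theorem tok_conn_union {A B : Set V} (hA : Conn G A) (hB : Conn G B)
    (h : A.Nonempty → (A ∩ B).Nonempty) : Conn G (A ∪ B) := by
  have key : ∀ x ∈ A, ∀ y ∈ B, Lk G (A ∪ B) x y := fun x hx y hy => by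
    obtain ⟨z, hz, hz'⟩ := h ⟨x, hx⟩
    exact ((hA x hx z hz).mono Set.subset_union_left).trans
      ((hB z hz' y hy).mono Set.subset_union_right)
  rintro x (hx | hx) y (hy | hy)
  · exact (hA x hx y hy).mono Set.subset_union_left
  · exact key x hx y hy
  · exact (key y hy x hx).symm
  · exact (hB x hx y hy).mono Set.subset_union_right

theorem tok_conn_image {A : Set V} (hA : Conn G A) (φ : G ≃g G) : Conn G (φ '' A) := by
  rintro _ ⟨x, hx, rfl⟩ _ ⟨y, hy, rfl⟩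
  exact (hA x hx y hy).map φ

theorem tok_cl_le (W : Subgroup (G ≃g G)) (ρ : ℕ) (U : Set V) : Cl G W ρ U ≤ W :=
  (Subgroup.closure_le _).2 fun _ h => h.1

theorem tok_cl_mono (W : Subgroup (G ≃g G)) {ρ ρ' : ℕ} {U U' : Set V} (h : ρ ≤ ρ') (h' : U ⊆ U') :
    Cl G W ρ U ≤ Cl G W ρ' U' :=
  Subgroup.closure_mono fun _ ⟨h1, x, hx, y, hy, h2⟩ => ⟨h1, x, h' hx, y, h' hy, h2.trans h⟩

theorem tok_many {Γ : Type} [Group Γ] {W C C' : Subgroup Γ} {T : ℕ} (h : Many W C T)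
    (h' : C' ≤ C) : Many W C' T := by
  have := Subgroup.relIndex_dvd_of_le_left W h'
  rcases h with h | h
  · rw [h] at this
    exact Or.inl (zero_dvd_iff.1 this)
  · by_cases h0 : C'.relIndex W = 0
    · exact Or.inl h0
    · exact Or.inr (h.trans (Nat.le_of_dvd (Nat.pos_of_ne_zero h0) this))

variable [Fact G.Connected]

theorem tok_dist_mul (u s : G ≃g G) (x y : V) : G.dist (u x) ((u * s) y) = G.dist x (s y) :=
  dist_iso u x (s y)

theorem tokHub_conn (W : Subgroup (G ≃g G)) (ρ : ℕ) {U : Set V} (hU : Conn G U) (u : G ≃g G) :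
    Conn G (tokHub G (Cl G W ρ U) ρ U u) := by
  have h1 : ∀ c ∈ Cl G W ρ U, ∀ y ∈ U, ∀ z, G.dist ((u * c) y) z ≤ ρ →
      Lk G (tokHub G (Cl G W ρ U) ρ U u) ((u * c) y) z := fun c hc y hy z hz =>
    Lk.ball fun v hv => ⟨c, hc, y, hy, by rw [dcomm]; exact hv.trans hz⟩
  have h2 : ∀ c ∈ Cl G W ρ U, ∀ x ∈ U, ∀ y ∈ U,
      Lk G (tokHub G (Cl G W ρ U) ρ U u) ((u * c) x) ((u * c) y) := fun c hc x hx y hy =>
    ((hU x hx y hy).map (u * c)).mono (by
      rintro _ ⟨v, hv, rfl⟩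
      exact ⟨c, hc, v, hv, by simp⟩)
  have h3 : ∀ y ∈ U, ∀ c ∈ Cl G W ρ U, ∀ c' ∈ Cl G W ρ U,
      Lk G (tokHub G (Cl G W ρ U) ρ U u) ((u * c') y) ((u * (c' * c)) y) := by
    intro y hy c hc
    induction hc using Subgroup.closure_induction with
    | mem s hs =>
      intro c' hc'
      have hs' : s ∈ Cl G W ρ U := Subgroup.subset_closure hs
      obtain ⟨-, a, ha, b, hb, hab⟩ := hs
      refine (h2 c' hc' y hy a ha).trans ((h1 c' hc' a ha ((u * (c' * s)) b) ?_).trans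
        (h2 _ (mul_mem hc' hs') b hb y hy))
      rwa [← mul_assoc, tok_dist_mul]
    | one =>
      intro c' hc'
      rw [mul_one]
      exact h2 c' hc' y hy y hy
    | mul a b ha hb iha ihb =>
      intro c' hc'
      rw [← mul_assoc c']
      exact (iha c' hc').trans (ihb _ (mul_mem hc' ha))
    | inv a ha ih =>
      intro c' hc'
      have := ih (c' * a⁻¹) (mul_mem hc' (inv_mem ha))
      rw [inv_mul_cancel_right] at this
      exact this.symm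
  rintro x ⟨c, hc, a, ha, h⟩ y ⟨c', hc', b, hb, h'⟩
  rw [dcomm] at h h'
  have h4 := h3 a ha c hc 1 (one_mem _)
  have h5 := h3 a ha c' hc' 1 (one_mem _)
  rw [one_mul] at h4 h5
  exact (h1 c hc a ha x h).symm.trans (h4.symm.trans (h5.trans
    ((h2 c' hc' a ha b hb).trans (h1 c' hc' b hb y h'))))

theorem tok_sep {W : Subgroup (G ≃g G)} {ρ : ℕ} {U : Set V} {u v c d : G ≃g G} (hu : u ∈ W)
    (hv : v ∈ W) (h : u⁻¹ * v ∉ Cl G W ρ U) (hc : c ∈ Cl G W ρ U) (hd : d ∈ Cl G W ρ U) {x y : V}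
    (hx : x ∈ U) (hy : y ∈ U) : ρ < G.dist ((u * c) x) ((v * d) y) := by
  by_contra hcon
  have e : v * d = u * c * ((u * c)⁻¹ * (v * d)) := by group
  rw [e, tok_dist_mul] at hcon
  have hs : (u * c)⁻¹ * (v * d) ∈ Cl G W ρ U := Subgroup.subset_closure
    ⟨mul_mem (inv_mem (mul_mem hu (tok_cl_le W ρ U hc))) (mul_mem hv (tok_cl_le W ρ U hd)),
      x, hx, y, hy, by omega⟩
  apply h
  have e' : u⁻¹ * v = c * ((u * c)⁻¹ * (v * d)) * d⁻¹ := by group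
  rw [e']
  exact mul_mem (mul_mem hc hs) (inv_mem hd)

/-- The state of the tokens before time `n`. -/
structure TokInv (G : SimpleGraph V) (W : Subgroup (G ≃g G)) (S : ℕ → Set V) (m K R n : ℕ) {h : ℕ}
    (X : Fin h → W) (T : Fin h → Set V) (w : Fin h → ℕ → W) (r : ℕ → ℕ) : Prop where
  conn : ∀ a, Conn G (T a)
  mem : ∀ a t, t < n → t ≤ m → ∀ x ∈ S t, (w a t : G ≃g G) x ∈ T a
  far : ∀ a b, a ≠ b → Far G K (T a) (T b)
  rle : ∀ t, r t ≤ R
  last : ∀ a t, n ≤ t + h + 1 → w a t = X a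
  lvl : ∀ b, ∀ z ∈ T b, ∃ t, t < n ∧ t ≤ m ∧ (∃ g ∈ W, ∃ y ∈ S t, G.dist z (g y) ≤ r t) ∧
    (∀ a, a ≠ b → ∀ x ∈ S t, 3 * r t + 3 * K ≤ G.dist z ((w a t : G ≃g G) x)) ∧
    (n ≤ t + h + 1 → ∃ y ∈ S t, z = (X b : G ≃g G) y)

theorem TokInv.step {W : Subgroup (G ≃g G)} {S : ℕ → Set V} {m K R P n h j ρ σ : ℕ}
    (h1 : ∀ t ≤ m, (S t).Nonempty ∧ Conn G (S t)) (h2 : ∀ t < m, (S t ∩ S (t + 1)).Nonempty)
    (h3 : ∀ a b, a + 2 ≤ b → b ≤ m → ∀ w ∈ W, ∀ x ∈ S a, ∀ y ∈ S b, 2 * P ≤ G.dist x (w y))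
    (hn : n ≤ m) (hj : j ≤ h) (hρ : ρ ≤ R) (hσ : 4 * ρ + 3 * K ≤ σ) (hP : 2 * R + K ≤ 2 * P)
    {X Y : Fin h → W} {T : Fin h → Set V} {w : Fin h → ℕ → W} {r : ℕ → ℕ}
    (H : TokInv G W S m K R n X T w r) (p : ℕ)
    (hY : ∀ a b, a ≠ b →
      (Y a : G ≃g G)⁻¹ * Y b ∉ Cl G W σ (tokU S m (n - (j + 1)) (n + p + (h + 1))))
    (hX : ∀ a, (Y a : G ≃g G)⁻¹ * X a ∈ Cl G W ρ (tokU S m (n - j) (n + p))) :
    ∃ T' w' r', TokInv G W S m K R (n + p + h + 2) Y T' w' r' := by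
  classical
  obtain ⟨C, hC⟩ : ∃ C, C = Cl G W ρ (tokU S m (n - j) (n + p)) := ⟨_, rfl⟩
  obtain ⟨E, hE⟩ : ∃ E, E = Cl G W σ (tokU S m (n - (j + 1)) (n + p + (h + 1))) := ⟨_, rfl⟩
  have hCE : C ≤ E := by
    rw [hC, hE]
    exact tok_cl_mono W (by omega) (tokU_mono (by omega) (by omega))
  have hCW : C ≤ W := hC ▸ tok_cl_le W _ _
  rw [← hC] at hX
  have hXe : ∀ a, (X a : G ≃g G) = Y a * ((Y a : G ≃g G)⁻¹ * X a) := fun a => by group
  obtain ⟨N, hN⟩ : ∃ N : Fin h → Set V, N = fun a => tokHub G C ρ (tokU S m (n - j) (n + p)) (Y a) ∪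
      (Y a : G ≃g G) '' tokU S m (n - j) (n + p + (h + 1)) := ⟨_, rfl⟩
  obtain ⟨y0, hy0⟩ := (h1 n hn).1
  have hhub : ∀ a t, n - j ≤ t → t ≤ n + p → t ≤ m → ∀ y ∈ S t, (X a : G ≃g G) y ∈
      tokHub G C ρ (tokU S m (n - j) (n + p)) (Y a) := fun a t t1 t2 t3 y hy =>
    ⟨_, hX a, y, ⟨t, t1, t2, t3, hy⟩, by rw [← hXe]; simp⟩
  have hNc : ∀ a, Conn G (N a) := fun a => by
    rw [hN]
    refine tok_conn_union ?_ (tok_conn_image (tokU_conn h1 h2 _ _) _) fun _ => ⟨(Y a : G ≃g G) y0,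
      ⟨1, one_mem _, y0, ⟨n, by omega, by omega, hn, hy0⟩, by simp⟩,
      y0, ⟨n, by omega, by omega, hn, hy0⟩, rfl⟩
    rw [hC]
    exact tokHub_conn W ρ (tokU_conn h1 h2 _ _) _
  have hNd : ∀ a, ∀ z ∈ N a, ∃ t, n - j ≤ t ∧ t ≤ n + p + (h + 1) ∧ t ≤ m ∧ ∃ c ∈ C, ∃ y ∈ S t,
      G.dist z (((Y a : G ≃g G) * c) y) ≤ ρ ∧ (n + p < t → z = (Y a : G ≃g G) y) := by
    intro a z hz
    rw [hN] at hz
    rcases hz with ⟨c, hc, y, ⟨t, t1, t2, t3, hy⟩, hz⟩ | ⟨y, ⟨t, t1, t2, t3, hy⟩, rfl⟩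
    · exact ⟨t, t1, by omega, t3, c, hc, y, hy, hz, fun h => by omega⟩
    · exact ⟨t, t1, t2, t3, 1, one_mem _, y, hy, by simp, fun _ => rfl⟩
  have hsep : ∀ a b, a ≠ b → ∀ c ∈ C, ∀ d ∈ C, ∀ s t, n - (j + 1) ≤ s → s ≤ n + p + (h + 1) →
      s ≤ m → n - (j + 1) ≤ t → t ≤ n + p + (h + 1) → t ≤ m → ∀ x ∈ S s, ∀ y ∈ S t,
      σ < G.dist (((Y a : G ≃g G) * c) x) (((Y b : G ≃g G) * d) y) :=
    fun a b hab c hc d hd s t s1 s2 s3 t1 t2 t3 x hx y hy =>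
      tok_sep (Y a).2 (Y b).2 (hY a b hab) (hE ▸ hCE hc) (hE ▸ hCE hd) ⟨s, s1, s2, s3, hx⟩
        ⟨t, t1, t2, t3, hy⟩
  have hTN : ∀ a b, a ≠ b → Far G K (T a) (N b) := by
    intro a b hab z hz z' hz'
    obtain ⟨s, s1, s2, ⟨g, hg, x, hx, hzx⟩, -, s4⟩ := H.lvl a z hz
    obtain ⟨t, t1, t2, t3, c, hc, y, hy, hzy, -⟩ := hNd b z' hz'
    by_cases hs : n - (j + 1) ≤ s
    · obtain ⟨x', hx', rfl⟩ := s4 (by omega)
      have e1 := hsep a b hab _ (hX a) c hc s t hs (by omega) s2 (by omega) t2 t3 x' hx' y hy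
      rw [← hXe] at e1
      have e2 := tri (G := G) ((X a : G ≃g G) x') z' (((Y b : G ≃g G) * c) y)
      omega
    · have e1 := h3 s t (by omega) t3 (g⁻¹ * ((Y b : G ≃g G) * c))
        (mul_mem (inv_mem hg) (mul_mem (Y b).2 (hCW hc))) x hx y hy
      rw [← tok_dist_mul g, mul_inv_cancel_left] at e1
      have e2 := tri (G := G) (g x) z (((Y b : G ≃g G) * c) y)
      have e3 := tri (G := G) z z' (((Y b : G ≃g G) * c) y)
      have e4 := H.rle s
      rw [dcomm] at hzx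
      omega
  have hNN : ∀ a b, a ≠ b → Far G K (N a) (N b) := by
    intro a b hab z hz z' hz'
    obtain ⟨s, s1, s2, s3, d, hd, x, hx, hzx, -⟩ := hNd a z hz
    obtain ⟨t, t1, t2, t3, c, hc, y, hy, hzy, -⟩ := hNd b z' hz'
    have e1 := hsep a b hab d hd c hc s t (by omega) s2 s3 (by omega) t2 t3 x hx y hy
    have e2 := tri (G := G) (((Y a : G ≃g G) * d) x) z (((Y b : G ≃g G) * c) y)
    have e3 := tri (G := G) z z' (((Y b : G ≃g G) * c) y)
    rw [dcomm] at hzx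
    omega
  refine ⟨fun a => T a ∪ N a, fun a t => if t < n - j then w a t else Y a,
    fun t => if t < n - j then r t else ρ, fun a => ?_, fun a t t1 t2 x hx => ?_,
    fun a b hab => ?_, fun t => ?_, fun a t ht => if_neg (by omega), fun b z hz => ?_⟩
  · refine tok_conn_union (H.conn a) (hNc a) ?_
    rintro ⟨z, hz⟩
    obtain ⟨s, s1, -⟩ := H.lvl a z hz
    obtain ⟨k, rfl⟩ : ∃ k, n = k + 1 := ⟨n - 1, by omega⟩
    obtain ⟨y, hy, hy'⟩ := h2 k (by omega)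
    have e := H.mem a k (by omega) (by omega) y hy
    rw [H.last a k (by omega)] at e
    refine ⟨_, e, ?_⟩
    rw [hN]
    exact Or.inl (hhub a (k + 1) (by omega) (by omega) hn y hy')
  · split_ifs with ht
    · exact Or.inl (H.mem a t (by omega) t2 x hx)
    · refine Or.inr ?_
      rw [hN]
      exact Or.inr ⟨x, ⟨t, by omega, by omega, t2, hx⟩, rfl⟩
  · exact ((H.far a b hab).union' (hTN a b hab)).union
      ((hTN b a hab.symm).symm.union' (hNN a b hab))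
  · split_ifs
    exacts [H.rle t, hρ]
  · have key : z ∈ N b → ∃ t, t < n + p + h + 2 ∧ t ≤ m ∧
        (∃ g ∈ W, ∃ y ∈ S t, G.dist z (g y) ≤ if t < n - j then r t else ρ) ∧
        (∀ a, a ≠ b → ∀ x ∈ S t, 3 * (if t < n - j then r t else ρ) + 3 * K ≤
          G.dist z (((if t < n - j then w a t else Y a : W) : G ≃g G) x)) ∧
        (n + p + h + 2 ≤ t + h + 1 → ∃ y ∈ S t, z = (Y b : G ≃g G) y) := by
      intro hz
      obtain ⟨t, t1, t2, t3, c, hc, y, hy, hzy, h4⟩ := hNd b z hz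
      have ht : ¬ t < n - j := by omega
      refine ⟨t, by omega, t3, ⟨_, mul_mem (Y b).2 (hCW hc), y, hy, by rwa [if_neg ht]⟩,
        fun a hab x hx => ?_, fun h => ⟨y, hy, h4 (by omega)⟩⟩
      rw [if_neg ht, if_neg ht]
      have e1 := hsep b a hab.symm c hc 1 (one_mem _) t t (by omega) t2 t3 (by omega) t2 t3
        y hy x hx
      rw [mul_one] at e1
      have e2 := tri (G := G) (((Y b : G ≃g G) * c) y) z ((Y a : G ≃g G) x)
      rw [dcomm] at hzy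
      omega
    rcases hz with hz | hz
    · obtain ⟨s, s1, s2, s3, s4, s5⟩ := H.lvl b z hz
      by_cases hs : s < n - j
      · refine ⟨s, by omega, s2, by rwa [if_pos hs], fun a hab x hx => ?_, fun h => by omega⟩
        rw [if_pos hs, if_pos hs]
        exact s4 a hab x hx
      · obtain ⟨y, hy, rfl⟩ := s5 (by omega)
        refine key ?_
        rw [hN]
        exact Or.inl (hhub b s (by omega) (by omega) s2 y hy)
    · exact key hz

theorem tokenSpec : TokenSpec := by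
  classical
  intro K h
  refine ⟨8 ^ (h + 1) * K, (h + 1) + (h + 1) * (h + 1), ?_⟩
  intro V G _ W S m h1 h2 h3 h4
  have hρ : ∀ j, 4 * (8 ^ j * K) + 3 * K ≤ 8 ^ (j + 1) * K := fun j => by
    have : K ≤ 8 ^ j * K := Nat.le_mul_of_pos_left _ (by positivity)
    rw [pow_succ, mul_right_comm]
    omega
  have hmono : ∀ i j, i ≤ j → 8 ^ i * K ≤ 8 ^ j * K := fun i j hij =>
    Nat.mul_le_mul_right _ (Nat.pow_le_pow_right (by norm_num) hij)
  have hidx : ∀ n ≤ m, ∀ j ≤ h + 1,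
      Many W (Cl G W (8 ^ j * K) (tokU S m (n - j) (n + j * (h + 1)))) (h * h) := by
    intro n hn j hj
    refine tok_many (h4 (n - (h + 1)) (by omega)) (tok_cl_mono W (hmono _ _ hj) ?_)
    rintro x ⟨t, t1, t2, t3, hx⟩
    have : j * (h + 1) ≤ (h + 1) * (h + 1) := Nat.mul_le_mul_right _ hj
    exact Set.mem_biUnion (x := t) ⟨by omega, by omega, t3⟩ hx
  have key : ∀ k, ∃ n, (k ≤ n ∨ m < n) ∧ ∃ M : Set (Finset W), TokSys h M ∧
      ∀ X : Fin h → W, TokBas M X → ∃ T w r, TokInv G W S m K (8 ^ h * K) n X T w r := by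
    intro k
    induction k with
    | zero =>
      refine ⟨0, Or.inl le_rfl, _, tok_free h _ (hidx 0 (Nat.zero_le _) 0 (Nat.zero_le _)),
        fun X _ => ⟨fun _ => ∅, fun a _ => X a, fun _ => 0, fun a x hx => hx.elim,
          fun a t ht => absurd ht (Nat.not_lt_zero _), fun a b _ x hx => hx.elim,
          fun _ => Nat.zero_le _, fun _ _ _ => rfl, fun b z hz => hz.elim⟩⟩
    | succ k ih =>
      obtain ⟨n, hn, M, hM, H⟩ := ih
      by_cases hm : m < n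
      · exact ⟨n, Or.inr hm, M, hM, H⟩
      obtain ⟨j, hj, M', hM', H'⟩ := hM.step
        (fun j => (Cl G W (8 ^ j * K) (tokU S m (n - j) (n + j * (h + 1)))).subgroupOf W)
        (fun j => Subgroup.comap_mono (tok_cl_mono W (hmono _ _ (by omega))
          (tokU_mono (by omega) (by rw [add_mul j 1]; omega))))
        (fun j hj => hidx n (by omega) (j + 1) (by omega))
      refine ⟨n + j * (h + 1) + h + 2, Or.inl (by omega), M', hM', fun Y hY => ?_⟩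
      obtain ⟨g1, X, hX, g2⟩ := H' Y hY
      obtain ⟨T, w, r, HI⟩ := H X hX
      refine HI.step h1 h2 h3 (by omega) hj (hmono _ _ hj) (hρ j) (by have := hρ h; omega) _
        (fun a b hab hc => g1 a b hab ?_) fun a => g2 a
      rw [add_mul j 1, one_mul, ← add_assoc]
      exact hc
  obtain ⟨n, hn, M, hM, H⟩ := key (m + 1)
  obtain ⟨X, hX⟩ := hM.bas
  obtain ⟨T, w, r, HI⟩ := H X hX
  have hR : 8 ^ h * K ≤ 8 ^ (h + 1) * K := hmono _ _ (by omega)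
  refine ⟨T, fun a t => w a t, r, HI.conn, fun a t ht => ⟨(w a t).2, HI.mem a t (by omega) ht⟩,
    HI.far, fun t ht => ⟨(HI.rle t).trans hR, fun b z hz => ?_⟩⟩
  obtain ⟨s, -, s2, ⟨g, hg, y, hy, s3⟩, s4, -⟩ := HI.lvl b z hz
  by_cases hs : s = t
  · subst hs
    exact Or.inr ⟨⟨g, hg, y, hy, s3⟩, s4⟩
  · exact Or.inl ⟨s, s2, hs, g, hg, y, hy, s3.trans ((HI.rle s).trans hR)⟩

end Pool.Agent.MP_77f003_co.H49
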